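import Pool.Agent.S05740

set_option autoImplicit false

/-! For all `0 < R < R'` there is a transcendental entire function `f` with `R(f) = 0` and a
component of `A_R(f)`, a closed half-line of the real axis, which does not meet `A_R'(f)`. -/

namespace Pool.Agent.Results.MP_a8a40e_an.HalfLine

open Set Filter Topology Pool.Agent.S05740

/-- The maximum modulus `M(r, f)`. -/
noncomputable def maxMod (f : ℂ → ℂ) (r : ℝ) : ℝ :=
  sSup ((fun z => ‖f z‖) '' Metric.sphere (0 : ℂ) r)

/-- The number `R(f)`. -/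
noncomputable def critR (f : ℂ → ℂ) : ℝ :=
  sInf {R : ℝ | 0 < R ∧ ∀ r : ℝ, R ≤ r → r < maxMod f r}

/-- The level `A_R(f)` of the fast escaping set. -/
def level (f : ℂ → ℂ) (R : ℝ) : Set ℂ := {z | ∀ n : ℕ, (maxMod f)^[n] R ≤ ‖f^[n] z‖}

/-- `A₀` is a (nonempty) connected component of the set `A`. -/
def IsComponent (A₀ A : Set ℂ) : Prop := ∃ z₀ ∈ A, A₀ = connectedComponentIn A z₀

/-! ### Components of `AA ρ` through negative numbers -/

lemma FF_gt_nine {r : ℝ} (hr : r ≠ 0) : 9 < FF r := by
  have h1 : -r + 1 < Real.exp (-r) := Real.add_one_lt_exp (neg_ne_zero.2 hr)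
  have h2 : Real.exp (-r) * Real.exp r = 1 := by
    rw [← Real.exp_add]; simp
  have h3 : (-r + 1) * Real.exp r < Real.exp (-r) * Real.exp r :=
    mul_lt_mul_of_pos_right h1 (Real.exp_pos r)
  unfold FF
  nlinarith

lemma comp_real {ρ x₀ : ℝ} (hρ : 0 < ρ) (hx₀ : x₀ < 0) (hz0 : (x₀ : ℂ) ∈ AA ρ) :
    ∀ w ∈ connectedComponentIn (AA ρ) (x₀ : ℂ), w.im = 0 ∧ w.re < 0 := by
  have hcont : Continuous ff := by unfold ff; fun_prop
  set K := connectedComponentIn (AA ρ) (x₀ : ℂ) with hK
  have hKpre : IsPreconnected K := isPreconnected_connectedComponentIn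
  have hKsub : K ⊆ AA ρ := connectedComponentIn_subset _ _
  have hKmem : (x₀ : ℂ) ∈ K := mem_connectedComponentIn hz0
  -- numerical facts
  have hF1 : 9 ≤ FF ρ := FF_ge_nine _
  have hF2 : 20 ≤ FF (FF ρ) := by
    have h1 : (2 : ℝ) ≤ Real.exp (FF ρ) := by
      have := Real.add_one_le_exp (FF ρ)
      linarith
    have h2 : FF (FF ρ) = 10 + (FF ρ - 1) * Real.exp (FF ρ) := rfl
    rw [h2]
    nlinarith
  have hFn : ∀ n : ℕ, 20 ≤ FF^[n + 2] ρ := by
    intro n
    induction n with
    | zero => exact hF2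
    | succ n ih =>
      rw [show n + 1 + 2 = (n + 2) + 1 by ring, Function.iterate_succ_apply']
      linarith [FF_gt (FF^[n + 2] ρ)]
  -- iterates of points of K avoid the slit
  have havoid : ∀ n : ℕ, ∀ w ∈ K, ¬ ((hh (ff^[n + 1] w)).im = 0 ∧ (hh (ff^[n + 1] w)).re ≤ 0) := by
    rintro n w hw ⟨h1, h2⟩
    have h3 := AA_iter (hKsub hw) (n + 2)
    have h4 : ff^[n + 2] w = ((10 + (hh (ff^[n + 1] w)).re : ℝ) : ℂ) := by
      rw [show n + 2 = (n + 1) + 1 by ring, Function.iterate_succ_apply', ff_eq]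
      apply Complex.ext
      · simp
      · rw [Complex.add_im, h1]; simp
    rw [h4] at h3
    exact real_notMem (by linarith [hFn n]) (by linarith) h3
  -- iterates of K stay in the tract
  have htract : ∀ n : ℕ, ∀ w ∈ K, ff^[n + 1] w ∈ TT := by
    intro n w hw
    have h1 : IsPreconnected (ff^[n + 1] '' K) :=
      hKpre.image _ (hcont.iterate (n + 1)).continuousOn
    have h2 : (ff^[n + 1] '' K ∩ TT).Nonempty := by
      refine ⟨_, ⟨_, hKmem, rfl⟩, ?_⟩
      rw [ff_iter_ofReal]
      refine ⟨by simpa using Real.pi_pos, ?_⟩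
      unfold psi
      simp only [Complex.ofReal_re, Complex.ofReal_im, Real.sinc_zero, Real.cos_zero]
      rw [Function.iterate_succ_apply']
      linarith [FF_ge_nine (FF^[n] x₀)]
    have h3 : closure TT ∩ (ff^[n + 1] '' K) ⊆ TT := by
      rintro _ ⟨h4, ⟨v, hv, rfl⟩⟩
      exact closure_TT h4 (havoid n v hv)
    exact h1.subset_of_closure_inter_subset isOpen_TT h2 h3 ⟨w, hw, rfl⟩
  -- images of K are real
  have hreal : ∀ w ∈ K, (ff w).im = 0 := by
    intro w hw
    have hgrow : ∀ n : ℕ, 2 ^ n * |(ff w).im| ≤ |(ff^[n + 1] w).im| := by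
      intro n
      induction n with
      | zero => simp
      | succ n ih =>
        have h1 := htract n w hw
        have h2 := htract (n + 1) w hw
        have h3 : 9 ≤ ‖ff^[n + 1] w‖ := by
          refine le_trans ?_ (hKsub hw (n + 1))
          rw [Function.iterate_succ_apply']
          exact FF_ge_nine _
        have h4 : 20 ≤ ‖ff^[n + 1 + 1] w‖ := (hFn n).trans (hKsub hw (n + 2))
        rw [Function.iterate_succ_apply' ff (n + 1)] at h2 h4 ⊢
        have := expand h1 h2 h3 h4
        rw [pow_succ]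
        linarith
    by_contra hne
    have hpos : 0 < |(ff w).im| := abs_pos.mpr hne
    obtain ⟨n, hn⟩ := pow_unbounded_of_one_lt (Real.pi / |(ff w).im|) (one_lt_two)
    rw [div_lt_iff₀ hpos] at hn
    have := hgrow n
    have := (htract n w hw).1
    linarith
  have hgt : ∀ w ∈ K, -1 < (hh w).re ∧ (hh w).im = 0 := by
    intro w hw
    have h1 : (hh w).im = 0 := by
      have := hreal w hw
      rw [ff_eq] at this
      simpa using this
    have h2 : 0 < (ff w).re := re_pos_of_TT (htract 0 w hw)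
    have h3 := hKsub hw 1
    simp only [Function.iterate_one] at h3
    have h4 : ff w = (((ff w).re : ℝ) : ℂ) := by
      apply Complex.ext
      · simp
      · simpa using hreal w hw
    rw [h4, Complex.norm_real, Real.norm_of_nonneg h2.le] at h3
    refine ⟨?_, h1⟩
    have h5 : 9 < FF ρ := FF_gt_nine hρ.ne'
    have h6 : (ff w).re = 10 + (hh w).re := by rw [ff_eq]; simp
    linarith
  -- K lies in the left half strip
  set V : Set ℂ := {z | z.re < 0 ∧ |z.im| < Real.pi} with hV
  have hVopen : IsOpen V :=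
    (isOpen_lt Complex.continuous_re continuous_const).inter
      (isOpen_lt Complex.continuous_im.abs continuous_const)
  have hline : ∀ w ∈ K, w.re ≤ 0 → |w.im| ≤ Real.pi → w.im = 0 ∧ w.re < 0 := by
    intro w hw h1 h2
    obtain ⟨h3, h4⟩ := hgt w hw
    have h5 : w.im = 0 := by
      by_contra hne
      rw [hh_im] at h4
      have h6 := (mul_eq_zero.mp h4).resolve_left (Real.exp_pos _).ne'
      have key : ∀ t : ℝ, 0 < t → t ≤ Real.pi → 0 < Real.sin t - t * Real.cos t := by
        intro t ht0 htpi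
        have hmono : StrictMonoOn (fun t : ℝ => Real.sin t - t * Real.cos t) (Icc 0 Real.pi) := by
          apply strictMonoOn_of_deriv_pos (convex_Icc 0 Real.pi)
          · exact Continuous.continuousOn (by fun_prop)
          · intro x hx
            rw [interior_Icc] at hx
            have hd : HasDerivAt (fun t : ℝ => Real.sin t - t * Real.cos t)
                (Real.cos x - (1 * Real.cos x + x * (-Real.sin x))) x :=
              (Real.hasDerivAt_sin x).sub ((hasDerivAt_id x).mul (Real.hasDerivAt_cos x))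
            rw [hd.deriv]
            have := mul_pos hx.1 (Real.sin_pos_of_pos_of_lt_pi hx.1 hx.2)
            nlinarith
        have := hmono ⟨le_refl 0, Real.pi_pos.le⟩ ⟨ht0.le, htpi⟩ ht0
        simpa using this
      rcases lt_or_gt_of_ne hne with h7 | h7
      · have h8 := key (-w.im) (by linarith) (by rwa [abs_of_neg h7] at h2)
        have h9 : 0 ≤ Real.sin (-w.im) :=
          Real.sin_nonneg_of_nonneg_of_le_pi (by linarith) (by rwa [abs_of_neg h7] at h2)
        rw [Real.sin_neg, Real.cos_neg] at h8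
        rw [Real.sin_neg] at h9
        nlinarith
      · have h8 := key w.im h7 (by rwa [abs_of_pos h7] at h2)
        have h9 : 0 ≤ Real.sin w.im :=
          Real.sin_nonneg_of_nonneg_of_le_pi h7.le (by rwa [abs_of_pos h7] at h2)
        nlinarith
    refine ⟨h5, lt_of_le_of_ne h1 (fun h6 => ?_)⟩
    rw [hh_re, h5, h6] at h3
    simp at h3
  have hKV : K ⊆ V := by
    refine hKpre.subset_of_closure_inter_subset hVopen ⟨_, hKmem, ?_⟩ ?_
    · rw [hV]
      refine ⟨?_, ?_⟩
      · simpa using hx₀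
      · simpa using Real.pi_pos
    · rintro w ⟨h1, h2⟩
      have h3 : w.re ≤ 0 := by
        have : closure V ⊆ {z : ℂ | z.re ≤ 0} :=
          closure_minimal (fun v hv => hv.1.le) (isClosed_le Complex.continuous_re continuous_const)
        exact this h1
      have h4 : |w.im| ≤ Real.pi := by
        have : closure V ⊆ {z : ℂ | |z.im| ≤ Real.pi} :=
          closure_minimal (fun v hv => hv.2.le)
            (isClosed_le Complex.continuous_im.abs continuous_const)
        exact this h1
      obtain ⟨h5, h6⟩ := hline w h2 h3 h4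
      exact ⟨h6, by rw [h5, abs_zero]; exact Real.pi_pos⟩
  intro w hw
  exact hline w hw (hKV hw).1.le (hKV hw).2.le

lemma FF_anti : StrictAntiOn FF (Iic 0) := by
  apply strictAntiOn_of_deriv_neg (convex_Iic 0)
  · exact fun x _ => (hasDerivAt_FF x).continuousAt.continuousWithinAt
  · intro x hx
    rw [interior_Iic] at hx
    rw [(hasDerivAt_FF x).deriv]
    exact mul_neg_of_neg_of_pos hx (Real.exp_pos x)

lemma FF_neg_lt {ρ : ℝ} (hρ : 0 < ρ) : FF (-ρ) < FF ρ := by
  -- the difference is an increasing function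
  have hmono : StrictMonoOn (fun t : ℝ => FF t - FF (-t)) (Ici 0) := by
    apply strictMonoOn_of_deriv_pos (convex_Ici 0)
    · have h1 : Continuous FF := continuous_iff_continuousAt.2 fun x => (hasDerivAt_FF x).continuousAt
      exact (h1.sub (h1.comp continuous_neg)).continuousOn
    · intro x hx
      rw [interior_Ici] at hx
      have hx' : (0 : ℝ) < x := hx
      have h2 : HasDerivAt (fun t : ℝ => FF (-t)) ((-x * Real.exp (-x)) * (-1)) x :=
        (hasDerivAt_FF (-x)).comp x (hasDerivAt_neg x)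
      have h3 : HasDerivAt (fun t : ℝ => FF t - FF (-t))
          (x * Real.exp x - (-x * Real.exp (-x)) * (-1)) x := (hasDerivAt_FF x).sub h2
      rw [h3.deriv]
      have h4 : Real.exp (-x) < Real.exp x := Real.exp_lt_exp.2 (by linarith)
      nlinarith
  have h := hmono (mem_Ici.2 (le_refl (0 : ℝ))) (mem_Ici.2 hρ.le) hρ
  simp only [neg_zero, sub_self] at h
  linarith

lemma exists_end {ρ : ℝ} (hρ : 0 < ρ) (hρ1 : ρ < 1) : ∃ a : ℝ, a ≤ -ρ ∧ FF a = FF ρ := by
  have h1 : Tendsto (fun x : ℝ => (x + 1) * Real.exp (-x)) atTop (𝓝 0) := by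
    have h2 := Real.tendsto_pow_mul_exp_neg_atTop_nhds_zero 1
    have h3 := Real.tendsto_pow_mul_exp_neg_atTop_nhds_zero 0
    have h4 := h2.add h3
    simp only [pow_one, pow_zero, add_zero] at h4
    refine h4.congr (fun x => ?_)
    ring
  have hlt : (0 : ℝ) < (1 - ρ) * Real.exp ρ := mul_pos (by linarith) (Real.exp_pos ρ)
  obtain ⟨X, hX1, hX2⟩ := ((h1.eventually (gt_mem_nhds hlt)).and (eventually_ge_atTop ρ)).exists
  have h5 : FF ρ ≤ FF (-X) := by
    unfold FF
    nlinarith
  have hcont : Continuous FF := continuous_iff_continuousAt.2 fun x => (hasDerivAt_FF x).continuousAt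
  have h6 := intermediate_value_Icc' (show -X ≤ -ρ by linarith) hcont.continuousOn
  obtain ⟨a, ha, ha2⟩ := h6 ⟨(FF_neg_lt hρ).le, h5⟩
  exact ⟨a, ha.2, ha2⟩

lemma ofReal_mem {ρ a x : ℝ} (hρ : 0 < ρ) (ha : a ≤ -ρ) (haF : FF a = FF ρ) (hx : x ≤ a) :
    (x : ℂ) ∈ AA ρ := by
  have hFF : FF ρ ≤ FF x := by
    rw [← haF]
    exact FF_anti.antitoneOn (mem_Iic.2 (by linarith)) (mem_Iic.2 (by linarith)) hx
  intro n
  rw [ff_iter_ofReal, Complex.norm_real]
  cases n with
  | zero =>
    simp only [Function.iterate_zero, id_eq]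
    rw [Real.norm_eq_abs, abs_of_neg (by linarith)]
    linarith
  | succ n =>
    rw [Function.iterate_succ_apply, Function.iterate_succ_apply]
    refine le_trans ?_ (Real.le_norm_self _)
    exact FF_iter_mono (by linarith [FF_ge_nine ρ]) hFF n

lemma le_of_mem {ρ a x : ℝ} (hρ : 0 < ρ) (ha : a ≤ -ρ) (haF : FF a = FF ρ) (hx : x < 0)
    (hxA : (x : ℂ) ∈ AA ρ) : x ≤ a := by
  by_contra hcon
  push Not at hcon
  have h1 := hxA 1
  simp only [Function.iterate_one] at h1
  rw [ff_ofReal, Complex.norm_real, Real.norm_of_nonneg (by linarith [FF_ge_nine x]), ← haF] at h1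
  have h2 := FF_anti (mem_Iic.2 (show a ≤ 0 by linarith)) (mem_Iic.2 hx.le) hcon
  linarith

/-- The closed half-line `(-∞, a]` in the complex plane. -/
def halfLine (a : ℝ) : Set ℂ := {z | z.im = 0 ∧ z.re ≤ a}

lemma component_eq {ρ a : ℝ} (hρ : 0 < ρ) (ha : a ≤ -ρ) (haF : FF a = FF ρ) :
    connectedComponentIn (AA ρ) (a : ℂ) = halfLine a := by
  apply subset_antisymm
  · intro w hw
    obtain ⟨h1, h2⟩ := comp_real hρ (by linarith) (ofReal_mem hρ ha haF (le_refl a)) w hw
    have h3 : w = ((w.re : ℝ) : ℂ) := by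
      apply Complex.ext
      · simp
      · simpa using h1
    have h4 : ((w.re : ℝ) : ℂ) ∈ AA ρ := by
      rw [← h3]
      exact connectedComponentIn_subset _ _ hw
    exact ⟨h1, le_of_mem hρ ha haF h2 h4⟩
  · have h1 : halfLine a = (fun x : ℝ => (x : ℂ)) '' Iic a := by
      ext z
      constructor
      · rintro ⟨h2, h3⟩
        refine ⟨z.re, h3, ?_⟩
        apply Complex.ext
        · simp
        · simpa using h2.symm
      · rintro ⟨x, hx, rfl⟩
        exact ⟨by simp, by simpa using hx⟩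
    apply IsPreconnected.subset_connectedComponentIn
    · rw [h1]
      exact isPreconnected_Iic.image _ Complex.continuous_ofReal.continuousOn
    · exact ⟨by simp, by simp⟩
    · rw [h1]
      rintro _ ⟨x, hx, rfl⟩
      exact ofReal_mem hρ ha haF hx

lemma not_mem_of_one_le {ρ' a : ℝ} (ha : a < 0) (hρ' : 1 ≤ ρ') {z : ℂ} (hz : z ∈ halfLine a) :
    z ∉ AA ρ' := by
  intro h
  have h3 : z = ((z.re : ℝ) : ℂ) := by
    apply Complex.ext
    · simp
    · simpa using hz.1
  have h4 := h 1
  simp only [Function.iterate_one] at h4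
  rw [h3, ff_ofReal, Complex.norm_real, Real.norm_of_nonneg (by linarith [FF_ge_nine z.re])] at h4
  have h5 := FF_lt_ten (show z.re < 1 by linarith [hz.2])
  have h6 : FF 1 = 10 := by unfold FF; ring
  have h7 : FF 1 ≤ FF ρ' := FF_mono (mem_Ici.2 zero_le_one) (mem_Ici.2 (by linarith)) hρ'
  linarith

/-! ### Scaling -/

/-- The scaled function. -/
noncomputable def gg (c : ℝ) (z : ℂ) : ℂ := (c : ℂ) * ff (z / (c : ℂ))

lemma gg_iter {c : ℝ} (hc : 0 < c) (n : ℕ) (z : ℂ) :
    (gg c)^[n] z = (c : ℂ) * ff^[n] (z / (c : ℂ)) := by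
  have hc' : (c : ℂ) ≠ 0 := by exact_mod_cast hc.ne'
  induction n with
  | zero =>
    simp only [Function.iterate_zero, id_eq]
    rw [mul_div_cancel₀ _ hc']
  | succ n ih =>
    rw [Function.iterate_succ_apply', Function.iterate_succ_apply', ih, gg,
      mul_div_cancel_left₀ _ hc']

lemma maxMod_gg {c : ℝ} (hc : 0 < c) {r : ℝ} (hr : 0 ≤ r) :
    maxMod (gg c) r = c * FF (r / c) := by
  have hc' : (c : ℂ) ≠ 0 := by exact_mod_cast hc.ne'
  unfold maxMod
  apply IsGreatest.csSup_eq
  constructor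
  · refine ⟨(r : ℂ), by simp [abs_of_nonneg hr], ?_⟩
    simp only [gg]
    rw [← Complex.ofReal_div, ff_ofReal, norm_mul, Complex.norm_real, Complex.norm_real,
      Real.norm_of_nonneg hc.le, Real.norm_of_nonneg (by linarith [FF_ge_nine (r / c)])]
  · rintro _ ⟨z, hz, rfl⟩
    have h1 := norm_ff_le (z / (c : ℂ))
    rw [mem_sphere_zero_iff_norm] at hz
    rw [norm_div, hz, Complex.norm_real, Real.norm_of_nonneg hc.le] at h1
    simp only [gg]
    rw [norm_mul, Complex.norm_real, Real.norm_of_nonneg hc.le]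
    exact mul_le_mul_of_nonneg_left h1 hc.le

lemma maxMod_gg_iter {c : ℝ} (hc : 0 < c) {r : ℝ} (hr : 0 ≤ r) (n : ℕ) :
    (maxMod (gg c))^[n] r = c * FF^[n] (r / c) := by
  induction n with
  | zero =>
    simp only [Function.iterate_zero, id_eq]
    field_simp
  | succ n ih =>
    have h1 : 0 ≤ FF^[n] (r / c) := FF_iter_nonneg (by positivity) n
    rw [Function.iterate_succ_apply', Function.iterate_succ_apply', ih,
      maxMod_gg hc (by positivity), mul_div_cancel_left₀ _ hc.ne']

lemma level_gg {c : ℝ} (hc : 0 < c) {r : ℝ} (hr : 0 ≤ r) :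
    level (gg c) r = {z | z / (c : ℂ) ∈ AA (r / c)} := by
  ext z
  simp only [level, AA, Set.mem_ofPred_eq]
  refine forall_congr' fun n => ?_
  rw [maxMod_gg_iter hc hr, gg_iter hc, norm_mul, Complex.norm_real, Real.norm_of_nonneg hc.le,
    mul_le_mul_iff_right₀ hc]

/-- **Components of the levels of the fast escaping set.**  For all `0 < R < R'` there are a
transcendental entire function `f` with `R(f) = 0` and a component `A₀` of `A_R(f)`, namely a
closed half-line `(-∞, a]`, which does not meet `A_R'(f)`. -/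
theorem result (R R' : ℝ) (hR : 0 < R) (hRR' : R < R') :
    ∃ f : ℂ → ℂ, Differentiable ℂ f ∧ (¬ ∃ p : Polynomial ℂ, ∀ z : ℂ, f z = p.eval z) ∧
      critR f = 0 ∧
      ∃ a : ℝ, IsComponent {z : ℂ | z.im = 0 ∧ z.re ≤ a} (level f R) ∧
        {z : ℂ | z.im = 0 ∧ z.re ≤ a} ∩ level f R' = ∅ := by
  have hR' : 0 < R' := hR.trans hRR'
  have hc' : (R' : ℂ) ≠ 0 := by exact_mod_cast hR'.ne'
  obtain ⟨a, ha, haF⟩ := exists_end (show 0 < R / R' by positivity)
    ((div_lt_one hR').2 hRR')
  have ha0 : a < 0 := by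
    have : 0 < R / R' := by positivity
    linarith
  refine ⟨gg R', ?_, ?_, ?_, R' * a, ?_, ?_⟩
  · unfold gg ff
    fun_prop
  · rintro ⟨p, hp⟩
    by_cases hdeg : 0 < p.degree
    · have h1 : Tendsto (fun x : ℝ => ‖p.eval ((-(R' * x) : ℝ) : ℂ)‖) atTop atTop := by
        apply p.tendsto_norm_atTop hdeg
        simp only [Complex.norm_real, norm_neg]
        exact tendsto_norm_atTop_atTop.comp (tendsto_id.const_mul_atTop hR')
      obtain ⟨x, hx, hx2⟩ := ((h1.eventually_ge_atTop (R' * 10)).and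
        (eventually_gt_atTop 0)).exists
      have h2 : ((-(R' * x) : ℝ) : ℂ) / (R' : ℂ) = ((-x : ℝ) : ℂ) := by
        push_cast
        field_simp
      rw [← hp, gg, h2, ff_ofReal, norm_mul, Complex.norm_real, Complex.norm_real,
        Real.norm_of_nonneg hR'.le, Real.norm_of_nonneg (by linarith [FF_ge_nine (-x)])] at hx
      have h3 := FF_lt_ten (show -x < 1 by linarith)
      have h4 : R' * FF (-x) < R' * 10 := mul_lt_mul_of_pos_left h3 hR'
      linarith
    · have h1 : p = Polynomial.C (p.coeff 0) := Polynomial.eq_C_of_degree_le_zero (not_lt.mp hdeg)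
      have h2 := hp 0
      have h3 := hp R'
      rw [h1, Polynomial.eval_C] at h2 h3
      rw [← h2, gg, gg, div_self hc', zero_div, mul_right_inj' hc'] at h3
      simp [ff] at h3
  · have h1 : {R₀ : ℝ | 0 < R₀ ∧ ∀ r : ℝ, R₀ ≤ r → r < maxMod (gg R') r} = Ioi 0 := by
      ext R₀
      constructor
      · exact fun h => h.1
      · intro h
        refine ⟨h, fun r hr => ?_⟩
        have hr0 : 0 ≤ r := (le_of_lt h).trans hr
        rw [maxMod_gg hR' hr0]
        have h2 := mul_lt_mul_of_pos_left (FF_gt (r / R')) hR'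
        rwa [mul_div_cancel₀ _ hR'.ne'] at h2
    rw [critR, h1, csInf_Ioi]
  · refine ⟨((R' * a : ℝ) : ℂ), ?_, ?_⟩
    · rw [level_gg hR' hR.le]
      show ((R' * a : ℝ) : ℂ) / (R' : ℂ) ∈ AA (R / R')
      have h2 : ((R' * a : ℝ) : ℂ) / (R' : ℂ) = (a : ℂ) := by
        push_cast
        field_simp
      rw [h2]
      exact ofReal_mem (by positivity) ha haF (le_refl a)
    · have h1 : level (gg R') R = (Homeomorph.mulLeft₀ (R' : ℂ) hc') '' AA (R / R') := by
        rw [level_gg hR' hR.le]
        ext z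
        constructor
        · intro hz
          exact ⟨z / (R' : ℂ), hz, by simp only [Homeomorph.coe_mulLeft₀]; rw [mul_div_cancel₀ _ hc']⟩
        · rintro ⟨w, hw, rfl⟩
          show (Homeomorph.mulLeft₀ (R' : ℂ) hc') w / (R' : ℂ) ∈ AA (R / R')
          simp only [Homeomorph.coe_mulLeft₀]
          rwa [mul_div_cancel_left₀ _ hc']
      have h2 : ((R' * a : ℝ) : ℂ) = (Homeomorph.mulLeft₀ (R' : ℂ) hc') (a : ℂ) := by
        simp
      rw [h1, h2, ← Homeomorph.image_connectedComponentIn _
        (ofReal_mem (by positivity) ha haF (le_refl a)), component_eq (by positivity) ha haF]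
      ext z
      constructor
      · rintro ⟨h3, h4⟩
        refine ⟨z / (R' : ℂ), ⟨?_, ?_⟩, by
          simp only [Homeomorph.coe_mulLeft₀]; rw [mul_div_cancel₀ _ hc']⟩
        · rw [Complex.div_ofReal_im, h3, zero_div]
        · rw [Complex.div_ofReal_re, div_le_iff₀ hR']
          linarith
      · rintro ⟨w, ⟨h3, h4⟩, rfl⟩
        simp only [Homeomorph.coe_mulLeft₀]
        refine ⟨?_, ?_⟩
        · rw [Complex.im_ofReal_mul, h3, mul_zero]
        · rw [Complex.re_ofReal_mul]
          exact mul_le_mul_of_nonneg_left h4 hR'.le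
  · rw [Set.eq_empty_iff_forall_notMem]
    rintro z ⟨⟨h1, h2⟩, h3⟩
    rw [level_gg hR' hR'.le] at h3
    refine not_mem_of_one_le ha0 (le_of_eq (div_self hR'.ne').symm) (z := z / (R' : ℂ)) ⟨?_, ?_⟩ h3
    · rw [Complex.div_ofReal_im, h1, zero_div]
    · rw [Complex.div_ofReal_re, div_le_iff₀ hR']
      linarith

end Pool.Agent.Results.MP_a8a40e_an.HalfLine
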